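import Mathlib
import Pool.Agent.H68.Cyc.Main

/-!
Every finite group `G` with fewer than `2 ^ (t + 2)` cyclic subgroups, where `t` is the number of
primes dividing the order of `G`, is solvable.
-/

open Subgroup Pool.Agent.H68.Cyc

namespace Pool.Agent.Results.MP_5fac9c_al.FewCyclicSubgroups

universe u

theorem main (n : ℕ) : ∀ (G : Type u) [Group G] [Finite G], Nat.card G = n →
    ¬ Group.IsSolvable G → 2 ^ ((Nat.card G).primeFactors.card + 2) ≤ cyc G := by
  induction n using Nat.strong_induction_on with
  | _ n ih =>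
  intro G _ _ hn hs
  by_cases hG : NoP G
  · exact nop_bound hG hs
  · unfold NoP at hG
    push Not at hG
    obtain ⟨p, hp, N, hN, hNp, hNb⟩ := hG
    have := Fact.mk hp
    have hNs : Group.IsSolvable N := by
      have := hNp.isNilpotent
      infer_instance
    have hq : ¬ Group.IsSolvable (G ⧸ N) := by
      intro h
      exact hs ((Group.isSolvable_iff_subgroup_quotient N).mpr ⟨hNs, h⟩)
    have hcard := N.card_eq_card_quotient_mul_card_subgroup
    obtain ⟨a, ha⟩ := (IsPGroup.iff_card).mp hNp
    have ha0 : a ≠ 0 := by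
      rintro rfl
      rw [pow_zero] at ha
      exact hNb (Subgroup.card_eq_one.mp ha)
    have hq0 : Nat.card (G ⧸ N) ≠ 0 := Nat.card_pos.ne'
    have hlt : Nat.card (G ⧸ N) < n := by
      rw [← hn, hcard, ha]
      have h1 : 1 < p ^ a := Nat.one_lt_pow ha0 hp.one_lt
      have h2 : 0 < Nat.card (G ⧸ N) := Nat.card_pos
      nlinarith
    have hih := ih _ hlt (G ⧸ N) rfl hq
    have hpf : (Nat.card G).primeFactors = insert p (Nat.card (G ⧸ N)).primeFactors := by
      rw [hcard, ha, Nat.primeFactors_mul hq0 (pow_ne_zero _ hp.ne_zero),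
        Nat.primeFactors_pow _ ha0, hp.primeFactors, Finset.union_comm, Finset.insert_eq]
    by_cases hpd : p ∣ Nat.card (G ⧸ N)
    · have h1 : (Nat.card G).primeFactors = (Nat.card (G ⧸ N)).primeFactors := by
        rw [hpf]
        exact Finset.insert_eq_of_mem (Nat.mem_primeFactors.mpr ⟨hp, hpd, hq0⟩)
      rw [h1]
      exact hih.trans (cyc_quotient_le N)
    · have h1 : (Nat.card G).primeFactors.card = (Nat.card (G ⧸ N)).primeFactors.card + 1 := by
        rw [hpf]
        exact Finset.card_insert_of_notMem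
          (fun h => hpd (Nat.dvd_of_mem_primeFactors h))
      rw [h1]
      have h2 := two_mul_cyc_quotient_le N hNp hNb hpd
      calc 2 ^ ((Nat.card (G ⧸ N)).primeFactors.card + 1 + 2)
          = 2 * 2 ^ ((Nat.card (G ⧸ N)).primeFactors.card + 2) := by ring
        _ ≤ 2 * cyc (G ⧸ N) := Nat.mul_le_mul_left _ hih
        _ ≤ cyc G := h2

theorem result (G : Type u) [Group G] [Finite G]
    (h : Nat.card {H : Subgroup G // IsCyclic H} < 2 ^ ((Nat.card G).primeFactors.card + 2)) :
    Group.IsSolvable G := by
  by_contra hs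
  have := main (Nat.card G) G rfl hs
  unfold cyc at this
  omega

end Pool.Agent.Results.MP_5fac9c_al.FewCyclicSubgroups
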